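import Pool.Agent.W4.QD.Stms

/-!
# Project QD: primes in a short multiplicative range not dividing a number
-/

namespace Pool.Agent.W490.QD

open Pool.Agent.W4.QD

theorem t_PRM : S_PRM := by
  intro ε r hε
  set K := ⌈1 / ε⌉₊ + 1 with hK
  have hKpos : 0 < K := Nat.succ_pos _
  refine ⟨2 ^ (K + r + 1), by positivity, ?_⟩
  intro X M hX hM
  set X1 := ⌈X⌉₊ with hX1def
  have hX1 : X ≤ X1 := Nat.le_ceil X
  have hX1pos : 0 < X1 := by
    rw [hX1def]
    exact Nat.ceil_pos.2 (by linarith)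
  have hX2 : (X1 : ℝ) ≤ 2 * X := by
    have := Nat.ceil_lt_add_one (show (0 : ℝ) ≤ X by linarith)
    rw [← hX1def] at this
    linarith
  have hq : ∀ j : ℕ, ∃ p : ℕ, p.Prime ∧ 2 ^ j * X1 < p ∧ p ≤ 2 * (2 ^ j * X1) :=
    fun j => Nat.exists_prime_lt_and_le_two_mul _ (by positivity)
  choose q q1 q2 q3 using hq
  have hmono : StrictMono q := strictMono_nat_of_lt_succ fun n => by
    refine lt_of_le_of_lt (q3 n) ?_
    have := q2 (n + 1)
    rw [pow_succ] at this
    linarith
  set N := r + Nat.log 2 M / K with hN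
  set J := Finset.Ico K (K + N) with hJ
  have hcard : (J.filter fun j => q j ∣ M).card + (J.filter fun j => ¬ q j ∣ M).card = N := by
    rw [Finset.card_filter_add_card_filter_not]
    simp [hJ]
  set S := J.filter (fun j => q j ∣ M) with hS
  set T := J.filter (fun j => ¬ q j ∣ M) with hT
  have hScard : S.card ≤ Nat.log 2 M / K := by
    rw [Nat.le_div_iff_mul_le hKpos]
    refine Nat.le_log_of_pow_le one_lt_two ?_
    have h1 : ∏ j ∈ S, q j ∣ M := by
      have h2 : ∏ p ∈ S.image q, p ∣ M := by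
        refine Finset.prod_primes_dvd M ?_ ?_
        · intro p hp
          obtain ⟨j, -, rfl⟩ := Finset.mem_image.1 hp
          exact (q1 j).prime
        · intro p hp
          obtain ⟨j, hj, rfl⟩ := Finset.mem_image.1 hp
          exact (Finset.mem_filter.1 hj).2
      rwa [Finset.prod_image (fun x _ y _ h => hmono.injective h)] at h2
    have h3 : ∏ j ∈ S, 2 ^ K ≤ ∏ j ∈ S, q j := by
      refine Finset.prod_le_prod (fun _ _ => Nat.zero_le _) fun j hj => ?_
      have h4 : K ≤ j := (Finset.mem_Ico.1 (Finset.mem_filter.1 hj).1).1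
      have h5 := q2 j
      have h6 : 2 ^ K ≤ 2 ^ j := Nat.pow_le_pow_right (by norm_num) h4
      nlinarith
    rw [Finset.prod_const, ← pow_mul, mul_comm K] at h3
    exact h3.trans (Nat.le_of_dvd hM h1)
  have hTcard : r ≤ T.card := by omega
  obtain ⟨P, hP, hPc⟩ := Finset.exists_subset_card_eq hTcard
  refine ⟨P.image q, by rw [Finset.card_image_of_injective _ hmono.injective, hPc], ?_⟩
  intro p hp
  obtain ⟨j, hj, rfl⟩ := Finset.mem_image.1 hp
  have hjT := Finset.mem_filter.1 (hP hj)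
  obtain ⟨hj1, hj2⟩ := Finset.mem_Ico.1 hjT.1
  refine ⟨q1 j, ?_, ?_, hjT.2⟩
  · have h1 : X1 < q j := lt_of_le_of_lt (Nat.le_mul_of_pos_left _ (by positivity)) (q2 j)
    have h2 : (X1 : ℝ) < q j := by exact_mod_cast h1
    linarith
  · have h1 : q j ≤ 2 ^ (K + N) * X1 := by
      refine (q3 j).trans ?_
      have h2 : 2 ^ (j + 1) ≤ 2 ^ (K + N) := Nat.pow_le_pow_right (by norm_num) hj2
      calc 2 * (2 ^ j * X1) = 2 ^ (j + 1) * X1 := by rw [pow_succ]; ring
        _ ≤ _ := Nat.mul_le_mul_right _ h2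
    have h2 : (q j : ℝ) ≤ 2 ^ (K + N) * X1 := by exact_mod_cast h1
    have h3 : (2 : ℝ) ^ (Nat.log 2 M / K) ≤ (M : ℝ) ^ ε := by
      have h4 : ((2 : ℝ) ^ (Nat.log 2 M / K)) ^ K ≤ M := by
        rw [← pow_mul]
        have h5 : 2 ^ (Nat.log 2 M / K * K) ≤ M :=
          (Nat.pow_le_pow_right (by norm_num) (Nat.div_mul_le_self _ _)).trans
            (Nat.pow_log_le_self 2 (by omega))
        exact_mod_cast h5
      have h6 : (0 : ℝ) ≤ (2 : ℝ) ^ (Nat.log 2 M / K) := by positivity
      have hM1 : (1 : ℝ) ≤ M := by exact_mod_cast hM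
      calc (2 : ℝ) ^ (Nat.log 2 M / K) =
          (((2 : ℝ) ^ (Nat.log 2 M / K)) ^ K) ^ ((K : ℝ)⁻¹) :=
            (Real.pow_rpow_inv_natCast h6 hKpos.ne').symm
        _ ≤ (M : ℝ) ^ ((K : ℝ)⁻¹) :=
            Real.rpow_le_rpow (by positivity) h4 (by positivity)
        _ ≤ (M : ℝ) ^ ε := by
            refine Real.rpow_le_rpow_of_exponent_le hM1 ?_
            have h7 : 1 / ε ≤ K := by
              rw [hK]
              push_cast
              have := Nat.le_ceil (1 / ε)
              linarith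
            have h8 : (0 : ℝ) < K := by exact_mod_cast hKpos
            rw [inv_le_comm₀ h8 hε, ← one_div]
            exact h7
    calc (q j : ℝ) ≤ 2 ^ (K + N) * X1 := h2
      _ ≤ 2 ^ (K + N) * (2 * X) := by gcongr
      _ = 2 ^ (K + r + 1) * X * 2 ^ (Nat.log 2 M / K) := by
          rw [hN]; ring
      _ ≤ 2 ^ (K + r + 1) * X * (M : ℝ) ^ ε := by gcongr

end Pool.Agent.W490.QD
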